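import Mathlib

set_option autoImplicit false

open MeasureTheory Real

namespace Pool.Agent.KS6_95.SV

/-- Taylor polynomial of degree six of the cosine. -/
noncomputable def T6 (y : ℝ) : ℝ := 1 - y ^ 2 / 2 + y ^ 4 / 24 - y ^ 6 / 720

lemma mono_step (f f' : ℝ → ℝ) (h0 : 0 ≤ f 0) (hd : ∀ x, HasDerivAt f (f' x) x)
    (hf : ∀ x, 0 ≤ x → 0 ≤ f' x) : ∀ x, 0 ≤ x → 0 ≤ f x := by
  intro x hx
  have hm : MonotoneOn f (Set.Ici 0) := by
    refine monotoneOn_of_deriv_nonneg (convex_Ici 0)
      (fun y _ => (hd y).continuousAt.continuousWithinAt)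
      (fun y _ => (hd y).differentiableAt.differentiableWithinAt) ?_
    intro y hy
    rw [interior_Ici] at hy
    rw [(hd y).deriv]
    exact hf y (le_of_lt hy)
  exact h0.trans (hm Set.self_mem_Ici hx hx)

lemma T6_le_nonneg (x : ℝ) (hx : 0 ≤ x) : T6 x ≤ Real.cos x := by
  have h1 : ∀ x : ℝ, 0 ≤ x → 0 ≤ x - Real.sin x := fun x hx => sub_nonneg.2 (Real.sin_le hx)
  have h2 := mono_step (fun x => Real.cos x - (1 - x ^ 2 / 2)) (fun x => x - Real.sin x)
    (by simp) (by
      intro x
      have := (Real.hasDerivAt_cos x).sub (((hasDerivAt_pow 2 x).div_const 2).const_sub 1)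
      refine this.congr_deriv ?_
      simp
      ring) h1
  have h3 := mono_step (fun x => Real.sin x - (x - x ^ 3 / 6))
    (fun x => Real.cos x - (1 - x ^ 2 / 2)) (by simp) (by
      intro x
      have := (Real.hasDerivAt_sin x).sub ((hasDerivAt_id x).sub ((hasDerivAt_pow 3 x).div_const 6))
      refine this.congr_deriv ?_
      simp
      ring) h2
  have h4 := mono_step (fun x => 1 - x ^ 2 / 2 + x ^ 4 / 24 - Real.cos x)
    (fun x => Real.sin x - (x - x ^ 3 / 6)) (by simp) (by
      intro x
      have := ((((hasDerivAt_pow 2 x).div_const 2).const_sub 1).add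
        ((hasDerivAt_pow 4 x).div_const 24)).sub (Real.hasDerivAt_cos x)
      refine this.congr_deriv ?_
      simp
      ring) h3
  have h5 := mono_step (fun x => x - x ^ 3 / 6 + x ^ 5 / 120 - Real.sin x)
    (fun x => 1 - x ^ 2 / 2 + x ^ 4 / 24 - Real.cos x) (by simp) (by
      intro x
      have := (((hasDerivAt_id x).sub ((hasDerivAt_pow 3 x).div_const 6)).add
        ((hasDerivAt_pow 5 x).div_const 120)).sub (Real.hasDerivAt_sin x)
      refine this.congr_deriv ?_
      simp
      ring) h4
  have h6 := mono_step (fun x => Real.cos x - T6 x)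
    (fun x => x - x ^ 3 / 6 + x ^ 5 / 120 - Real.sin x) (by simp [T6]) (by
      intro x
      have := (Real.hasDerivAt_cos x).sub (((((hasDerivAt_pow 2 x).div_const 2).const_sub 1).add
        ((hasDerivAt_pow 4 x).div_const 24)).sub ((hasDerivAt_pow 6 x).div_const 720))
      refine this.congr_deriv ?_
      simp
      ring) h5
  have := h6 x hx
  linarith

lemma T6_le (x : ℝ) : T6 x ≤ Real.cos x := by
  rcases le_total 0 x with h | h
  · exact T6_le_nonneg x h
  · have := T6_le_nonneg (-x) (by linarith)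
    rw [Real.cos_neg] at this
    have e : T6 (-x) = T6 x := by unfold T6; ring
    linarith

lemma integral_cos_pow_pi (n : ℕ) :
    ∫ x in (-π)..π, Real.cos x ^ (n + 2) = (n + 1) / (n + 2) * ∫ x in (-π)..π, Real.cos x ^ n := by
  rw [integral_cos_pow]
  simp

lemma integral_cos_shift (n : ℕ) (a : ℝ) :
    ∫ x in (-π)..π, Real.cos (x - a) ^ n = ∫ x in (-π)..π, Real.cos x ^ n := by
  rw [intervalIntegral.integral_comp_sub_right (fun x => Real.cos x ^ n) a]
  have hp : Function.Periodic (fun x : ℝ => Real.cos x ^ n) (2 * π) := by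
    intro x
    simp only
    rw [Real.cos_add_two_pi]
  have := hp.intervalIntegral_add_eq (-π - a) (-π)
  have e1 : -π - a + 2 * π = π - a := by ring
  have e2 : -π + 2 * π = π := by ring
  rwa [e1, e2] at this

end Pool.Agent.KS6_95.SV
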