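import Mathlib
import Pool.Agent.KS6_95.SV.Tay

set_option autoImplicit false

open MeasureTheory Real Set

namespace Pool.Agent.KS6_95.SV

lemma inner_polar (r θ : ℝ) (t : ℂ) :
    inner ℝ (Complex.polarCoord.symm (r, θ)) t = r * (‖t‖ * Real.cos (θ - Complex.arg t)) := by
  rw [Complex.polarCoord_symm_apply, Complex.inner, Real.cos_sub]
  have h1 : ‖t‖ * Real.cos (Complex.arg t) = t.re := Complex.norm_mul_cos_arg t
  have h2 : ‖t‖ * Real.sin (Complex.arg t) = t.im := Complex.norm_mul_sin_arg t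
  have h3 : ‖t‖ * (Real.cos θ * Real.cos t.arg + Real.sin θ * Real.sin t.arg) =
      Real.cos θ * t.re + Real.sin θ * t.im := by
    rw [← h1, ← h2]
    ring
  rw [h3]
  have e1 : (Complex.cos (θ : ℂ)).re = Real.cos θ := Complex.cos_ofReal_re θ
  have e2 : (Complex.sin (θ : ℂ)).re = Real.sin θ := Complex.sin_ofReal_re θ
  simp [e1, e2]
  ring

/-- Integration of a radial function times a power of a linear functional. -/
lemma polar (q : ℝ → ℝ) (n : ℕ) (t : ℂ) :
    ∫ x : ℂ, q ‖x‖ * (inner ℝ x t : ℝ) ^ n =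
      (∫ r in Ioi (0 : ℝ), r ^ (n + 1) * q r) * (‖t‖ ^ n * ∫ θ in (-π)..π, Real.cos θ ^ n) := by
  rw [← Complex.integral_comp_polarCoord_symm, polarCoord_target]
  have h : ∀ p ∈ Ioi (0 : ℝ) ×ˢ Ioo (-π) π,
      p.1 • (q ‖Complex.polarCoord.symm p‖ * (inner ℝ (Complex.polarCoord.symm p) t : ℝ) ^ n) =
      (p.1 ^ (n + 1) * q p.1) * (‖t‖ ^ n * Real.cos (p.2 - Complex.arg t) ^ n) := by
    rintro ⟨r, θ⟩ ⟨hr, _⟩
    have hr' : (0 : ℝ) < r := hr
    rw [inner_polar, Complex.norm_polarCoord_symm, abs_of_pos hr']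
    simp only [smul_eq_mul]
    ring
  rw [setIntegral_congr_fun (measurableSet_Ioi.prod measurableSet_Ioo) h,
    Measure.volume_eq_prod,
    setIntegral_prod_mul (fun r : ℝ => r ^ (n + 1) * q r)
      (fun θ : ℝ => ‖t‖ ^ n * Real.cos (θ - Complex.arg t) ^ n)]
  congr 1
  rw [integral_const_mul]
  congr 1
  rw [← integral_cos_shift n (Complex.arg t),
    intervalIntegral.integral_of_le (by linarith [Real.pi_pos] : -π ≤ π),
    integral_Ioc_eq_integral_Ioo]

/-- Integral of a radial function. -/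
lemma radial (q : ℝ → ℝ) : ∫ x : ℂ, q ‖x‖ = 2 * π * ∫ r in Ioi (0 : ℝ), r * q r := by
  have := polar q 0 0
  simp only [pow_zero, mul_one, one_mul, zero_add, pow_one] at this
  rw [this, mul_comm]
  congr 1
  simp
  ring

/-- a function cut off at radius `a` -/
noncomputable def cut (a : ℝ) (q : ℝ → ℝ) (r : ℝ) : ℝ := if r < a then q r else 0

lemma int_cut (a : ℝ) (ha : 0 ≤ a) (q : ℝ → ℝ) (n : ℕ) :
    ∫ r in Ioi (0 : ℝ), r ^ n * cut a q r = ∫ r in (0 : ℝ)..a, r ^ n * q r := by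
  rw [intervalIntegral.integral_of_le ha, integral_Ioc_eq_integral_Ioo]
  have h : ∀ r : ℝ, r ^ n * cut a q r = (Iio a).indicator (fun r => r ^ n * q r) r := by
    intro r
    unfold cut
    by_cases hr : r < a
    · rw [if_pos hr, indicator_of_mem (by exact hr)]
    · rw [if_neg hr, indicator_of_notMem (by exact hr), mul_zero]
  simp_rw [h]
  rw [setIntegral_indicator measurableSet_Iio]
  rfl

end Pool.Agent.KS6_95.SV
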