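import Mathlib
import Pool.Agent.KS6_95.SV.Disc

set_option autoImplicit false

open MeasureTheory Real Set

namespace Pool.Agent.KS6_95.SV

/-- the profile of the kernel -/
noncomputable def pf (r : ℝ) : ℝ := 1 - 2 * r ^ 2

/-- lower bound for the Fourier transform of the kernel -/
noncomputable def LL (s : ℝ) : ℝ := 3 / 16 - s ^ 2 / 192 + 5 * s ^ 4 / 98304 - s ^ 6 / 3932160

lemma cut_integrable (a : ℝ) (q : ℝ → ℝ) (hq : Continuous q) (h : ℂ → ℝ) (hh : Continuous h) :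
    Integrable (fun x : ℂ => cut a q ‖x‖ * h x) := by
  have e : (fun x : ℂ => cut a q ‖x‖ * h x) =
      (Metric.ball (0 : ℂ) a).indicator (fun x => q ‖x‖ * h x) := by
    funext x
    unfold cut
    by_cases hx : ‖x‖ < a
    · rw [if_pos hx, indicator_of_mem (by simpa using hx)]
    · rw [if_neg hx, indicator_of_notMem (by simpa using hx), zero_mul]
  rw [e, integrable_indicator_iff Metric.isOpen_ball.measurableSet]
  have hc : Continuous fun x : ℂ => q ‖x‖ * h x := (hq.comp continuous_norm).mul hh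
  exact (hc.continuousOn.integrableOn_compact (isCompact_closedBall (0 : ℂ) a)).mono_set
    Metric.ball_subset_closedBall

lemma mom_int (k : ℕ) : ∫ r in (0 : ℝ)..(1 / 2), r ^ k * pf r =
    (1 / 2) ^ (k + 1) / (k + 1) - 2 * ((1 / 2) ^ (k + 3) / (k + 3)) := by
  have e : ∀ r : ℝ, r ^ k * pf r = r ^ k - 2 * r ^ (k + 2) := by
    intro r
    unfold pf
    ring
  simp_rw [e]
  rw [intervalIntegral.integral_sub (Continuous.intervalIntegrable (by fun_prop) _ _)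
      (Continuous.intervalIntegrable (by fun_prop) _ _),
    intervalIntegral.integral_const_mul, integral_pow, integral_pow]
  push_cast
  simp
  ring_nf

lemma cos0 : ∫ x in (-π)..π, Real.cos x ^ 0 = 2 * π := by
  simp
  ring

lemma cos2 : ∫ x in (-π)..π, Real.cos x ^ 2 = π := by
  have h : ∫ x in (-π)..π, Real.cos x ^ 2 = _ := integral_cos_pow_pi 0
  rw [h, cos0]
  push_cast
  ring

lemma cos4 : ∫ x in (-π)..π, Real.cos x ^ 4 = 3 * π / 4 := by
  have h : ∫ x in (-π)..π, Real.cos x ^ 4 = _ := integral_cos_pow_pi 2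
  rw [h, cos2]
  push_cast
  ring

lemma cos6 : ∫ x in (-π)..π, Real.cos x ^ 6 = 5 * π / 8 := by
  have h : ∫ x in (-π)..π, Real.cos x ^ 6 = _ := integral_cos_pow_pi 4
  rw [h, cos4]
  push_cast
  ring

lemma pf_cont : Continuous pf := by unfold pf; fun_prop

lemma term (n : ℕ) (t : ℂ) : ∫ x : ℂ, cut (1 / 2) pf ‖x‖ * (inner ℝ x t : ℝ) ^ n =
    ((1 / 2) ^ (n + 2) / (n + 2) - 2 * ((1 / 2) ^ (n + 4) / (n + 4))) *
      (‖t‖ ^ n * ∫ θ in (-π)..π, Real.cos θ ^ n) := by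
  rw [polar, int_cut (1 / 2) (by norm_num), mom_int]
  push_cast
  congr 2
  all_goals ring_nf

lemma disc_int (t : ℂ) :
    ∫ x : ℂ, cut (1 / 2) pf ‖x‖ * T6 (2 * π * (inner ℝ x t : ℝ)) = π * LL (2 * π * ‖t‖) := by
  have hI : ∀ n : ℕ, Integrable (fun x : ℂ => cut (1 / 2) pf ‖x‖ * (inner ℝ x t : ℝ) ^ n) :=
    fun n => cut_integrable _ _ pf_cont _ (by fun_prop)
  have e : ∀ x : ℂ, cut (1 / 2) pf ‖x‖ * T6 (2 * π * (inner ℝ x t : ℝ)) =
      cut (1 / 2) pf ‖x‖ * (inner ℝ x t : ℝ) ^ 0 -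
      ((2 * π) ^ 2 / 2) * (cut (1 / 2) pf ‖x‖ * (inner ℝ x t : ℝ) ^ 2) +
      ((2 * π) ^ 4 / 24) * (cut (1 / 2) pf ‖x‖ * (inner ℝ x t : ℝ) ^ 4) -
      ((2 * π) ^ 6 / 720) * (cut (1 / 2) pf ‖x‖ * (inner ℝ x t : ℝ) ^ 6) := by
    intro x
    unfold T6
    ring
  simp_rw [e]
  have i02 : Integrable (fun x : ℂ => cut (1 / 2) pf ‖x‖ * (inner ℝ x t : ℝ) ^ 0 -
      ((2 * π) ^ 2 / 2) * (cut (1 / 2) pf ‖x‖ * (inner ℝ x t : ℝ) ^ 2)) :=
    (hI 0).sub ((hI 2).const_mul _)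
  have i024 : Integrable (fun x : ℂ => cut (1 / 2) pf ‖x‖ * (inner ℝ x t : ℝ) ^ 0 -
      ((2 * π) ^ 2 / 2) * (cut (1 / 2) pf ‖x‖ * (inner ℝ x t : ℝ) ^ 2) +
      ((2 * π) ^ 4 / 24) * (cut (1 / 2) pf ‖x‖ * (inner ℝ x t : ℝ) ^ 4)) :=
    i02.add ((hI 4).const_mul _)
  rw [integral_sub i024 ((hI 6).const_mul _), integral_add i02 ((hI 4).const_mul _),
    integral_sub (hI 0) ((hI 2).const_mul _), integral_const_mul, integral_const_mul,
    integral_const_mul, term, term, term, term, cos0, cos2, cos4, cos6]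
  unfold LL
  push_cast
  ring

end Pool.Agent.KS6_95.SV
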