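import Mathlib
import Pool.Agent.KS6_95.SV.Ker

set_option autoImplicit false

open MeasureTheory Real Set FourierTransform SchwartzMap
open scoped ContDiff

namespace Pool.Agent.KS6_95.SV

/-- a bump function -/
noncomputable def chi (r : ℝ) (h0 : 0 < r) (h1 : r < 1 / 2) : ContDiffBump (0 : ℂ) :=
  ⟨r, 1 / 2, h0, h1⟩

/-- the kernel before the Fourier transform -/
noncomputable def phiF (r : ℝ) (h0 : 0 < r) (h1 : r < 1 / 2) (x : ℂ) : ℂ :=
  ((chi r h0 h1 x * pf ‖x‖ : ℝ) : ℂ)

lemma phiF_smooth (r : ℝ) (h0 : 0 < r) (h1 : r < 1 / 2) : ContDiff ℝ ∞ (phiF r h0 h1) := by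
  unfold phiF pf
  refine Complex.ofRealCLM.contDiff.comp ?_
  refine (chi r h0 h1).contDiff.mul ?_
  exact contDiff_const.sub (contDiff_const.mul (contDiff_norm_sq ℝ))

lemma phiF_zero (r : ℝ) (h0 : 0 < r) (h1 : r < 1 / 2) (x : ℂ) (hx : 1 / 2 ≤ ‖x‖) :
    phiF r h0 h1 x = 0 := by
  have : chi r h0 h1 x = 0 := by
    refine (chi r h0 h1).zero_of_le_dist ?_
    rw [dist_zero_right]
    exact hx
  unfold phiF
  rw [this, zero_mul, Complex.ofReal_zero]

lemma phiF_supp (r : ℝ) (h0 : 0 < r) (h1 : r < 1 / 2) : HasCompactSupport (phiF r h0 h1) := by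
  refine HasCompactSupport.intro (isCompact_closedBall (0 : ℂ) (1 / 2)) ?_
  intro x hx
  refine phiF_zero r h0 h1 x ?_
  rw [mem_closedBall_zero_iff, not_le] at hx
  exact hx.le

lemma chi_le (r : ℝ) (h0 : 0 < r) (h1 : r < 1 / 2) (x : ℂ) : chi r h0 h1 x ≤ 1 :=
  (chi r h0 h1).le_one

lemma chi_nonneg (r : ℝ) (h0 : 0 < r) (h1 : r < 1 / 2) (x : ℂ) : 0 ≤ chi r h0 h1 x :=
  (chi r h0 h1).nonneg

lemma chi_one (r : ℝ) (h0 : 0 < r) (h1 : r < 1 / 2) (x : ℂ) (hx : ‖x‖ ≤ r) :
    chi r h0 h1 x = 1 := by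
  refine (chi r h0 h1).one_of_mem_closedBall ?_
  rw [mem_closedBall_zero_iff]
  exact hx

lemma chi_cont (r : ℝ) (h0 : 0 < r) (h1 : r < 1 / 2) : Continuous (chi r h0 h1) :=
  (chi r h0 h1).continuous

lemma pf_bd (x : ℝ) (h0 : 0 ≤ x) (h : x < 1 / 2) : 0 ≤ pf x ∧ pf x ≤ 1 := by
  unfold pf
  constructor <;> nlinarith

lemma sq_int : ∫ x : ℂ, cut (1 / 2) (fun r => pf r ^ 2) ‖x‖ = 7 * π / 48 := by
  rw [radial]
  have h := int_cut (1 / 2) (by norm_num) (fun r => pf r ^ 2) 1
  simp only [pow_one] at h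
  rw [h]
  have e : ∀ r : ℝ, r * pf r ^ 2 = r ^ 1 - 4 * r ^ 3 + 4 * r ^ 5 := by
    intro r
    unfold pf
    ring
  simp_rw [e]
  rw [intervalIntegral.integral_add (Continuous.intervalIntegrable (by fun_prop) _ _)
      (Continuous.intervalIntegrable (by fun_prop) _ _),
    intervalIntegral.integral_sub (Continuous.intervalIntegrable (by fun_prop) _ _)
      (Continuous.intervalIntegrable (by fun_prop) _ _),
    intervalIntegral.integral_const_mul, intervalIntegral.integral_const_mul, integral_pow,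
    integral_pow, integral_pow]
  norm_num
  ring

lemma annulus_int (r : ℝ) (h0 : 0 < r) (h1 : r < 1 / 2) :
    ∫ x : ℂ, (cut (1 / 2) (fun _ => 1) ‖x‖ - cut r (fun _ => 1) ‖x‖) = π * (1 / 4 - r ^ 2) := by
  have i1 : Integrable (fun x : ℂ => cut (1 / 2) (fun _ => 1) ‖x‖) := by
    have := cut_integrable (1 / 2) (fun _ => 1) continuous_const (fun _ => 1) continuous_const
    simpa using this
  have i2 : Integrable (fun x : ℂ => cut r (fun _ => 1) ‖x‖) := by
    have := cut_integrable r (fun _ => 1) continuous_const (fun _ => 1) continuous_const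
    simpa using this
  have c : ∀ a : ℝ, 0 ≤ a → ∫ x : ℂ, cut a (fun _ => 1) ‖x‖ = π * a ^ 2 := by
    intro a ha
    rw [radial]
    have h := int_cut a ha (fun _ => 1) 1
    simp only [pow_one, mul_one] at h
    rw [h, integral_id]
    ring
  rw [integral_sub i1 i2, c _ (by norm_num), c _ h0.le]
  ring

lemma re_fourier (r : ℝ) (h0 : 0 < r) (h1 : r < 1 / 2) (t : ℂ) :
    (𝓕 (phiF r h0 h1) t).re =
      ∫ x : ℂ, (chi r h0 h1 x * pf ‖x‖) * Real.cos (2 * π * (inner ℝ x t : ℝ)) := by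
  rw [Real.fourier_eq]
  have hi : Integrable (fun v : ℂ => 𝐞 (-inner ℝ v t) • phiF r h0 h1 v) := by
    have h2 : Integrable (phiF r h0 h1) :=
      (phiF_smooth r h0 h1).continuous.integrable_of_hasCompactSupport (phiF_supp r h0 h1)
    exact (Real.fourierIntegral_convergent_iff t).2 h2
  have h3 := integral_re hi
  simp only [RCLike.re_to_complex] at h3
  rw [← h3]
  refine integral_congr_ae (Filter.Eventually.of_forall fun x => ?_)
  simp only [Circle.smul_def, Real.fourierChar_apply, smul_eq_mul, phiF]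
  rw [Complex.mul_re, Complex.ofReal_re, Complex.ofReal_im, mul_zero, sub_zero,
    Complex.exp_ofReal_mul_I_re, mul_comm]
  congr 1
  rw [← Real.cos_neg]
  congr 1
  ring

lemma re_lower (r : ℝ) (h0 : 0 < r) (h1 : r < 1 / 2) (t : ℂ) :
    π * LL (2 * π * ‖t‖) - π * (1 / 4 - r ^ 2) ≤ (𝓕 (phiF r h0 h1) t).re := by
  rw [re_fourier, ← disc_int, ← annulus_int r h0 h1]
  have i1 : Integrable (fun x : ℂ => cut (1 / 2) (fun _ => 1) ‖x‖) := by
    have := cut_integrable (1 / 2) (fun _ => 1) continuous_const (fun _ => 1) continuous_const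
    simpa using this
  have i2 : Integrable (fun x : ℂ => cut r (fun _ => 1) ‖x‖) := by
    have := cut_integrable r (fun _ => 1) continuous_const (fun _ => 1) continuous_const
    simpa using this
  have i3 : Integrable (fun x : ℂ => cut (1 / 2) pf ‖x‖ * T6 (2 * π * (inner ℝ x t : ℝ))) :=
    cut_integrable _ _ pf_cont _ (by unfold T6; fun_prop)
  have i4 : Integrable (fun x : ℂ => (chi r h0 h1 x * pf ‖x‖) *
      Real.cos (2 * π * (inner ℝ x t : ℝ))) := by
    have e : (fun x : ℂ => (chi r h0 h1 x * pf ‖x‖) * Real.cos (2 * π * (inner ℝ x t : ℝ))) =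
        fun x : ℂ => cut (1 / 2) pf ‖x‖ *
          (chi r h0 h1 x * Real.cos (2 * π * (inner ℝ x t : ℝ))) := by
      funext x
      unfold cut
      by_cases hx : ‖x‖ < 1 / 2
      · rw [if_pos hx]; ring
      · have : chi r h0 h1 x = 0 := by
          refine (chi r h0 h1).zero_of_le_dist ?_
          rw [dist_zero_right]
          exact not_lt.1 hx
        rw [if_neg hx, this]; ring
    rw [e]
    refine cut_integrable _ _ pf_cont _ ?_
    have := chi_cont r h0 h1
    fun_prop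
  have i12 : Integrable (fun x : ℂ => cut (1 / 2) (fun _ => 1) ‖x‖ - cut r (fun _ => 1) ‖x‖) :=
    i1.sub i2
  rw [← integral_sub i3 i12]
  refine integral_mono (i3.sub i12) i4 fun x => ?_
  simp only
  have hc := chi_le r h0 h1 x
  have hc0 := chi_nonneg r h0 h1 x
  set y := 2 * π * (inner ℝ x t : ℝ) with hy
  have hT := T6_le y
  have hcos1 := Real.cos_le_one y
  have hcos2 := Real.neg_one_le_cos y
  unfold cut
  by_cases hx : ‖x‖ < 1 / 2
  · obtain ⟨hp0, hp1⟩ := pf_bd ‖x‖ (norm_nonneg x) hx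
    rw [if_pos hx, if_pos hx]
    have hTp : pf ‖x‖ * T6 y ≤ pf ‖x‖ * Real.cos y := mul_le_mul_of_nonneg_left hT hp0
    by_cases hr : ‖x‖ < r
    · rw [if_pos hr, chi_one r h0 h1 x hr.le]
      linarith
    · rw [if_neg hr]
      have h3 : pf ‖x‖ * Real.cos y * (1 - chi r h0 h1 x) ≤ 1 := by
        have h4 : pf ‖x‖ * Real.cos y ≤ 1 := by nlinarith
        nlinarith
      nlinarith
  · have hr : ¬ ‖x‖ < r := by
      intro h; exact hx (h.trans h1)
    have : chi r h0 h1 x = 0 := by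
      refine (chi r h0 h1).zero_of_le_dist ?_
      rw [dist_zero_right]
      exact not_lt.1 hx
    rw [if_neg hx, if_neg hx, if_neg hr, this]
    simp

lemma exists_kernel (η : ℝ) (hη0 : 0 < η) (hη1 : η < 1) : ∃ f : 𝓢(ℂ, ℂ),
    (∀ x, 1 / 2 ≤ ‖x‖ → f x = 0) ∧ (∫ t, ‖𝓕 f t‖ ^ 2) ≤ 7 * π / 48 ∧
    ∀ t, π * LL (2 * π * ‖t‖) - η ≤ (𝓕 f t).re := by
  set r : ℝ := 1 / 2 - η / 4 with hr
  have h0 : 0 < r := by rw [hr]; linarith
  have h1 : r < 1 / 2 := by rw [hr]; linarith
  set f : 𝓢(ℂ, ℂ) := (phiF_supp r h0 h1).toSchwartzMap (phiF_smooth r h0 h1) with hf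
  have hfc : ∀ x, f x = phiF r h0 h1 x := fun x => rfl
  have hft : ∀ t, 𝓕 f t = 𝓕 (phiF r h0 h1) t := by
    intro t
    rw [fourier_coe]
    rfl
  refine ⟨f, fun x hx => phiF_zero r h0 h1 x hx, ?_, fun t => ?_⟩
  · rw [integral_norm_sq_fourier, ← sq_int]
    refine integral_mono_of_nonneg (Filter.Eventually.of_forall fun x => by positivity) ?_
      (Filter.Eventually.of_forall fun x => ?_)
    · have := cut_integrable (1 / 2) (fun r => pf r ^ 2) (by have := pf_cont; fun_prop)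
        (fun _ => 1) continuous_const
      simpa using this
    · simp only
      rw [hfc, phiF, Complex.norm_real, Real.norm_eq_abs, sq_abs]
      unfold cut
      by_cases hx : ‖x‖ < 1 / 2
      · rw [if_pos hx, mul_pow]
        have hc := chi_le r h0 h1 x
        have hc0 := chi_nonneg r h0 h1 x
        have : chi r h0 h1 x ^ 2 ≤ 1 := by nlinarith
        nlinarith [sq_nonneg (pf ‖x‖)]
      · have : chi r h0 h1 x = 0 := by
          refine (chi r h0 h1).zero_of_le_dist ?_
          rw [dist_zero_right]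
          exact not_lt.1 hx
        rw [if_neg hx, this]
        simp
  · rw [hft]
    refine le_trans ?_ (re_lower r h0 h1 t)
    have h4 : π * (1 / 4 - r ^ 2) ≤ η := by
      have e : 1 / 4 - r ^ 2 = (η / 4) * (1 - η / 4) := by rw [hr]; ring
      rw [e]
      have p4 := Real.pi_lt_four
      have p0 := Real.pi_pos
      have q0 : 0 ≤ (η / 4) * (1 - η / 4) := by
        apply mul_nonneg <;> linarith
      have q1 : (η / 4) * (1 - η / 4) ≤ η / 4 := by nlinarith
      calc π * ((η / 4) * (1 - η / 4)) ≤ 4 * ((η / 4) * (1 - η / 4)) :=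
            mul_le_mul_of_nonneg_right p4.le q0
        _ ≤ η := by linarith
    linarith

end Pool.Agent.KS6_95.SV
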