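import Mathlib

set_option autoImplicit false

open MeasureTheory Complex FourierTransform SchwartzMap
open scoped Real RealInnerProductSpace ComplexConjugate

namespace Pool.Agent.KS6_95.SV

lemma fourier_trans (f : 𝓢(ℂ, ℂ)) (z t : ℂ) :
    𝓕 (f.compSubConstCLM ℂ z) t = Complex.exp (-(2 * π * (inner ℝ z t : ℝ) * I)) * 𝓕 f t := by
  rw [fourier_coe, fourier_coe, Real.fourier_eq, Real.fourier_eq]
  have h : (fun v : ℂ => 𝐞 (-inner ℝ v t) • (f.compSubConstCLM ℂ z) v) =
      fun v : ℂ => (fun y : ℂ => 𝐞 (-inner ℝ (y + z) t) • f y) (v - z) := by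
    funext v
    simp
  rw [h, integral_sub_right_eq_self (fun y : ℂ => 𝐞 (-inner ℝ (y + z) t) • f y) z,
    ← integral_const_mul]
  refine integral_congr_ae (Filter.Eventually.of_forall fun y => ?_)
  simp only [Circle.smul_def, Real.fourierChar_apply, smul_eq_mul]
  rw [← mul_assoc, ← Complex.exp_add, inner_add_left]
  congr 2
  push_cast
  ring

/-- The characteristic function of the density `|𝓕 f|²` vanishes far from the origin. -/
lemma char_zero (f : 𝓢(ℂ, ℂ)) (ρ : ℝ) (hf : ∀ x, ρ ≤ ‖x‖ → f x = 0) (z : ℂ)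
    (hz : 2 * ρ ≤ ‖z‖) :
    ∫ t : ℂ, Complex.exp (2 * π * (inner ℝ z t : ℝ) * I) * ((‖𝓕 f t‖ ^ 2 : ℝ) : ℂ) = 0 := by
  have h := integral_inner_fourier_fourier (f.compSubConstCLM ℂ z) f
  have h1 : ∀ x : ℂ, inner ℂ ((f.compSubConstCLM ℂ z) x) (f x) = 0 := by
    intro x
    rw [compSubConstCLM_apply]
    by_cases hx : ρ ≤ ‖x‖
    · rw [hf x hx, inner_zero_right]
    · push Not at hx
      have h2 : ρ ≤ ‖x - z‖ := by
        have := norm_sub_norm_le z x
        rw [norm_sub_rev] at this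
        linarith
      rw [hf _ h2, inner_zero_left]
  simp only [h1, integral_zero] at h
  rw [← h]
  refine integral_congr_ae (Filter.Eventually.of_forall fun t => ?_)
  simp only
  rw [fourier_trans, RCLike.inner_apply, map_mul, ← Complex.exp_conj]
  have h2 : conj (-(2 * (π : ℂ) * ((inner ℝ z t : ℝ) : ℂ) * I)) =
      2 * (π : ℂ) * ((inner ℝ z t : ℝ) : ℂ) * I := by
    rw [map_neg, map_mul, map_mul, map_mul, Complex.conj_ofReal, Complex.conj_ofReal,
      Complex.conj_I, map_ofNat]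
    ring
  rw [h2, mul_left_comm, Complex.mul_conj, Complex.normSq_eq_norm_sq]

end Pool.Agent.KS6_95.SV
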