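import Mathlib
import Pool.Agent.KS6_95.SV.Bump

set_option autoImplicit false

open MeasureTheory Real Set FourierTransform SchwartzMap

namespace Pool.Agent.KS6_95.SV

lemma num2 : ∫ s in (0 : ℝ)..6, s * (1 + T6 (4 / 9 * s)) = 52468 / 3645 := by
  have h : ∀ s : ℝ, s * (1 + T6 (4 / 9 * s)) = (2 / 1) * s ^ 1 + (-8 / 81) * s ^ 3 + (32 / 19683) * s ^ 5 + (-256 / 23914845) * s ^ 7 := by
    intro s; simp only [LL, T6]; ring
  simp_rw [h]
  have hi : ∀ (c : ℝ) (k : ℕ), IntervalIntegrable (fun s : ℝ => c * s ^ k) volume 0 6 :=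
    fun c k => Continuous.intervalIntegrable (by fun_prop) _ _
  rw [intervalIntegral.integral_add (((hi _ _).add (hi _ _)).add (hi _ _)) (hi _ _),
    intervalIntegral.integral_add ((hi _ _).add (hi _ _)) (hi _ _),
    intervalIntegral.integral_add (hi _ _) (hi _ _)]
  simp only [intervalIntegral.integral_const_mul, integral_pow]
  norm_num

lemma num1 : ∫ s in (0 : ℝ)..6, s * (1 + T6 (4 / 9 * s)) * LL s ^ 2 = 1317521985799 / 4459069440000 := by
  have h : ∀ s : ℝ, s * (1 + T6 (4 / 9 * s)) * LL s ^ 2 = (9 / 128) * s ^ 1 + (-17 / 2304) * s ^ 3 + (98167 / 286654464) * s ^ 5 + (-26093587 / 2786281390080) * s ^ 7 + (2160031021 / 12839184645488640) * s ^ 9 + (-961329581 / 462210647237591040) * s ^ 11 + (132299557 / 7395370355801456640) * s ^ 13 + (-965993 / 9244212944751820800) * s ^ 15 + (883 / 2311053236187955200) * s ^ 17 + (-1 / 1444408272617472000) * s ^ 19 := by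
    intro s; simp only [LL, T6]; ring
  simp_rw [h]
  have hi : ∀ (c : ℝ) (k : ℕ), IntervalIntegrable (fun s : ℝ => c * s ^ k) volume 0 6 :=
    fun c k => Continuous.intervalIntegrable (by fun_prop) _ _
  rw [intervalIntegral.integral_add (((((((((hi _ _).add (hi _ _)).add (hi _ _)).add (hi _ _)).add (hi _ _)).add (hi _ _)).add (hi _ _)).add (hi _ _)).add (hi _ _)) (hi _ _),
    intervalIntegral.integral_add ((((((((hi _ _).add (hi _ _)).add (hi _ _)).add (hi _ _)).add (hi _ _)).add (hi _ _)).add (hi _ _)).add (hi _ _)) (hi _ _),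
    intervalIntegral.integral_add (((((((hi _ _).add (hi _ _)).add (hi _ _)).add (hi _ _)).add (hi _ _)).add (hi _ _)).add (hi _ _)) (hi _ _),
    intervalIntegral.integral_add ((((((hi _ _).add (hi _ _)).add (hi _ _)).add (hi _ _)).add (hi _ _)).add (hi _ _)) (hi _ _),
    intervalIntegral.integral_add (((((hi _ _).add (hi _ _)).add (hi _ _)).add (hi _ _)).add (hi _ _)) (hi _ _),
    intervalIntegral.integral_add ((((hi _ _).add (hi _ _)).add (hi _ _)).add (hi _ _)) (hi _ _),
    intervalIntegral.integral_add (((hi _ _).add (hi _ _)).add (hi _ _)) (hi _ _),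
    intervalIntegral.integral_add ((hi _ _).add (hi _ _)) (hi _ _),
    intervalIntegral.integral_add (hi _ _) (hi _ _)]
  simp only [intervalIntegral.integral_const_mul, integral_pow]
  norm_num

end Pool.Agent.KS6_95.SV
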