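import Mathlib
import Pool.Agent.KS6_95.SV.Num
import Pool.Agent.KS6_95.SV.Four

set_option autoImplicit false

open MeasureTheory Real Set FourierTransform SchwartzMap

namespace Pool.Agent.KS6_95.SV

lemma LL_bd (s : ℝ) (h0 : 0 ≤ s) (h6 : s ≤ 6) : 0 ≤ LL s ∧ LL s ≤ 1 := by
  have h : LL s = 3 / 16 - (s ^ 2) / 192 + 5 * (s ^ 2) ^ 2 / 98304 - (s ^ 2) ^ 3 / 3932160 := by
    unfold LL; ring
  have hu0 : 0 ≤ s ^ 2 := by positivity
  have hu : s ^ 2 ≤ 36 := by nlinarith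
  rw [h]
  set u := s ^ 2
  constructor
  · have h1 : 0 ≤ u ^ 2 * (5 / 98304 - u / 3932160) := by
      apply mul_nonneg (by positivity)
      linarith
    nlinarith
  · have h1 : 0 ≤ u ^ 3 := by positivity
    have h2 : u ^ 2 ≤ 36 * 36 := by nlinarith
    nlinarith

lemma T6_bd (s : ℝ) (h0 : 0 ≤ s) (h6 : s ≤ 6) : 0 ≤ 1 + T6 (4 / 9 * s) := by
  have h : T6 (4 / 9 * s) = 1 - (16 / 81 * s ^ 2) / 2 + (16 / 81 * s ^ 2) ^ 2 / 24
      - (16 / 81 * s ^ 2) ^ 3 / 720 := by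
    unfold T6; ring
  have hu0 : 0 ≤ 16 / 81 * s ^ 2 := by positivity
  have hu : 16 / 81 * s ^ 2 ≤ 64 / 9 := by nlinarith
  rw [h]
  set v := 16 / 81 * s ^ 2
  have e : 1 + (1 - v / 2 + v ^ 2 / 24 - v ^ 3 / 720) =
      (1 + (1 - (64 / 9) / 2 + (64 / 9) ^ 2 / 24 - (64 / 9) ^ 3 / 720)) +
      (64 / 9 - v) * (1 / 2 - (v + 64 / 9) / 24 + (v ^ 2 + v * (64 / 9) + (64 / 9) ^ 2) / 720) := by
    ring
  rw [e]
  have h2 : 0 ≤ 1 / 2 - (v + 64 / 9) / 24 + (v ^ 2 + v * (64 / 9) + (64 / 9) ^ 2) / 720 := by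
    nlinarith [sq_nonneg (v - 64 / 9)]
  have h3 : 0 ≤ (64 / 9 - v) * (1 / 2 - (v + 64 / 9) / 24 +
      (v ^ 2 + v * (64 / 9) + (64 / 9) ^ 2) / 720) := mul_nonneg (by linarith) h2
  have h4 : (0 : ℝ) ≤ (1 + (1 - (64 / 9) / 2 + (64 / 9) ^ 2 / 24 - (64 / 9) ^ 3 / 720)) := by
    norm_num
  linarith

lemma LL_cont : Continuous LL := by unfold LL; fun_prop

lemma T6_cont : Continuous T6 := by unfold T6; fun_prop

/-- the minorant -/
noncomputable def FF (η s : ℝ) : ℝ := (1 + T6 (4 / 9 * s)) * (π ^ 2 * LL s ^ 2 - 2 * π * η)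

lemma FF_cont (η : ℝ) : Continuous (FF η) := by
  unfold FF
  have h1 := LL_cont
  have h2 := T6_cont
  fun_prop

lemma FF_int (η : ℝ) : ∫ x : ℂ, cut (3 / π) (fun ρ => FF η (2 * π * ρ)) ‖x‖ =
    π / 2 * (1317521985799 / 4459069440000) - η * (52468 / 3645) := by
  have hpi := Real.pi_pos
  rw [radial]
  have h1 := int_cut (3 / π) (by positivity) (fun ρ => FF η (2 * π * ρ)) 1
  simp only [pow_one] at h1
  rw [h1]
  have h2 : ∀ ρ : ℝ, ρ * FF η (2 * π * ρ) =
      (2 * π)⁻¹ * (fun s => s * FF η s) (2 * π * ρ) := by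
    intro ρ
    simp only
    field_simp
  simp_rw [h2]
  rw [intervalIntegral.integral_const_mul,
    intervalIntegral.integral_comp_mul_left (fun s => s * FF η s) (by positivity)]
  have h3 : 2 * π * (3 / π) = 6 := by field_simp; norm_num
  rw [h3, mul_zero]
  have h4 : ∀ s : ℝ, s * FF η s = π ^ 2 * (s * (1 + T6 (4 / 9 * s)) * LL s ^ 2) -
      2 * π * η * (s * (1 + T6 (4 / 9 * s))) := by
    intro s
    unfold FF
    ring
  simp_rw [h4]
  have c1 := LL_cont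
  have c2 := T6_cont
  rw [intervalIntegral.integral_sub (Continuous.intervalIntegrable (by fun_prop) _ _)
      (Continuous.intervalIntegrable (by fun_prop) _ _), intervalIntegral.integral_const_mul,
    intervalIntegral.integral_const_mul, num1, num2, smul_eq_mul]
  field_simp

lemma W_integrable (f : 𝓢(ℂ, ℂ)) : Integrable (fun t : ℂ => ‖𝓕 f t‖ ^ 2) := by
  have h := (𝓕 f).memLp 2 (μ := volume)
  exact h.integrable_norm_pow (by norm_num)

theorem no_G (G : ℂ → ℝ) (hGc : Continuous G) (hG1 : ∀ t, |G t| ≤ 1)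
    (hG : ∀ t : ℂ, ‖t‖ ≤ 3 / π → Real.cos (8 * π / 9 * ‖t‖) ≤ G t)
    (h0 : ∀ f : 𝓢(ℂ, ℂ), (∀ x, 1 / 2 ≤ ‖x‖ → f x = 0) → ∫ t, G t * ‖𝓕 f t‖ ^ 2 = 0) :
    False := by
  obtain ⟨f, hf0, hf1, hf2⟩ := exists_kernel (1 / 10000) (by norm_num) (by norm_num)
  have hpi := Real.pi_pos
  have hW := W_integrable f
  have hGW : Integrable (fun t : ℂ => G t * ‖𝓕 f t‖ ^ 2) := by
    refine hW.mono' (hGc.aestronglyMeasurable.mul hW.aestronglyMeasurable) ?_
    refine Filter.Eventually.of_forall fun t => ?_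
    rw [norm_mul, Real.norm_eq_abs, Real.norm_eq_abs, abs_of_nonneg (sq_nonneg ‖𝓕 f t‖)]
    calc |G t| * ‖𝓕 f t‖ ^ 2 ≤ 1 * ‖𝓕 f t‖ ^ 2 :=
          mul_le_mul_of_nonneg_right (hG1 t) (by positivity)
      _ = _ := one_mul _
  have h1 : ∫ t : ℂ, (1 + G t) * ‖𝓕 f t‖ ^ 2 ≤ 7 * π / 48 := by
    have e : ∀ t : ℂ, (1 + G t) * ‖𝓕 f t‖ ^ 2 = ‖𝓕 f t‖ ^ 2 + G t * ‖𝓕 f t‖ ^ 2 := by
      intro t; ring
    simp_rw [e]
    rw [integral_add hW hGW, h0 f hf0, add_zero]
    exact hf1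
  have h2 : ∫ x : ℂ, cut (3 / π) (fun ρ => FF (1 / 10000) (2 * π * ρ)) ‖x‖ ≤
      ∫ t : ℂ, (1 + G t) * ‖𝓕 f t‖ ^ 2 := by
    refine integral_mono ?_ ?_ fun t => ?_
    · have := cut_integrable (3 / π) (fun ρ => FF (1 / 10000) (2 * π * ρ))
        (by have := FF_cont (1 / 10000); fun_prop) (fun _ => 1) continuous_const
      simpa using this
    · have e : (fun t : ℂ => (1 + G t) * ‖𝓕 f t‖ ^ 2) =
          fun t : ℂ => ‖𝓕 f t‖ ^ 2 + G t * ‖𝓕 f t‖ ^ 2 := by
        funext t; ring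
      rw [e]
      exact hW.add hGW
    · simp only
      have hGt := abs_le.1 (hG1 t)
      unfold cut
      by_cases ht : ‖t‖ < 3 / π
      · rw [if_pos ht]
        set s := 2 * π * ‖t‖ with hs
        have hs0 : 0 ≤ s := by positivity
        have hs6 : s ≤ 6 := by
          have : 2 * π * ‖t‖ ≤ 2 * π * (3 / π) :=
            mul_le_mul_of_nonneg_left ht.le (by positivity)
          have e : 2 * π * (3 / π) = 6 := by field_simp; norm_num
          rw [e] at this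
          exact this
        obtain ⟨hL0, hL1⟩ := LL_bd s hs0 hs6
        have hT0 := T6_bd s hs0 hs6
        have hcos : T6 (4 / 9 * s) ≤ G t := by
          refine (T6_le _).trans ?_
          have := hG t ht.le
          have e : 4 / 9 * s = 8 * π / 9 * ‖t‖ := by rw [hs]; ring
          rw [e]
          exact this
        have hre := hf2 t
        rw [← hs] at hre
        have hn : (𝓕 f t).re ≤ ‖𝓕 f t‖ := Complex.re_le_norm _
        have hWt : π ^ 2 * LL s ^ 2 - 2 * π * (1 / 10000) ≤ ‖𝓕 f t‖ ^ 2 := by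
          have hx : π * LL s - 1 / 10000 ≤ ‖𝓕 f t‖ := hre.trans hn
          have hn0 := norm_nonneg (𝓕 f t)
          have hp : 0 ≤ π * LL s := by positivity
          have hp1 : π * LL s ≤ π := by nlinarith
          rcases le_total (1 / 10000) (π * LL s) with h | h
          · have h5 : (π * LL s - 1 / 10000) ^ 2 ≤ ‖𝓕 f t‖ ^ 2 := by
              apply pow_le_pow_left₀ (by linarith) hx
            nlinarith
          · have h5 : (π * LL s) ^ 2 ≤ (1 / 10000) ^ 2 := pow_le_pow_left₀ hp h 2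
            have h6 : 3 < π := Real.pi_gt_three
            nlinarith [sq_nonneg ‖𝓕 f t‖]
        unfold FF
        calc (1 + T6 (4 / 9 * s)) * (π ^ 2 * LL s ^ 2 - 2 * π * (1 / 10000)) ≤
            (1 + T6 (4 / 9 * s)) * ‖𝓕 f t‖ ^ 2 := mul_le_mul_of_nonneg_left hWt hT0
          _ ≤ _ := mul_le_mul_of_nonneg_right (by linarith) (by positivity)
      · rw [if_neg ht]
        apply mul_nonneg _ (by positivity)
        linarith
  rw [FF_int] at h2
  have h6 : 3 < π := Real.pi_gt_three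
  have h7 := h2.trans h1
  linarith

end Pool.Agent.KS6_95.SV
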