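import Mathlib
import Pool.Agent.KS6_95.SV.Main
import Pool.Graph.R_pool_sql_team_seeded_620a6dc7.H434.Core
import Pool.Graph.R_pool_sql_team_seeded_620a6dc7.H434.Angle

set_option autoImplicit false

open MeasureTheory Set FourierTransform SchwartzMap Pool.Agent.H434
open scoped InnerProductSpace ComplexConjugate Real

namespace Pool.Agent.KS6_95.SV

variable {V ι : Type} [NormedAddCommGroup V] [InnerProductSpace ℂ V] [Fintype ι]

/-- Two spectral subspaces whose spectra are farther than `9/4` times the (weak) distance of the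
operators have no common unit vector. -/
theorem sep (u v : OrthonormalBasis ι ℂ V) (a b : ι → ℂ) (ε : ℝ) (hε0 : 0 ≤ ε)
    (HA HB : ℂ → V →ₗ[ℂ] V) (hA : ∀ z i, HA z (u i) = ((⟪z, a i⟫_ℝ : ℝ) : ℂ) • u i)
    (hB : ∀ z i, HB z (v i) = ((⟪z, b i⟫_ℝ : ℝ) : ℂ) • v i)
    (h : ∀ z y, ‖HB z y - HA z y‖ ≤ ε * ‖z‖ * ‖y‖) (x : V) (hx : ‖x‖ = 1)
    (d : ℝ) (hd0 : 0 < d) (hd : 9 / 4 * ε ≤ d)
    (hsep : ∀ i j, ⟪u i, x⟫_ℂ ≠ 0 → ⟪v j, x⟫_ℂ ≠ 0 → d ≤ ‖a i - b j‖) : False := by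
  have hpi := Real.pi_pos
  set α : ℂ → ι → ℝ := fun t i => ⟪((2 * π / d : ℝ) : ℂ) * t, a i⟫_ℝ with hα
  set β : ℂ → ι → ℝ := fun t i => ⟪((2 * π / d : ℝ) : ℂ) * t, b i⟫_ℝ with hβ
  set g : ℂ → ℂ := fun t => ⟪ph u (α t) x, ph v (β t) x⟫_ℂ with hg
  have hαβ : ∀ t i j, β t j - α t i = 2 * π * ⟪(((1 / d : ℝ) : ℂ) * (b j - a i)), t⟫_ℝ := by
    intro t i j
    simp only [hα, hβ, Complex.inner]
    simp
    field_simp
    ring
  have hgsum : ∀ t, g t = ∑ i, ∑ j, (conj ⟪u i, x⟫_ℂ * ⟪v j, x⟫_ℂ * ⟪u i, v j⟫_ℂ) *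
      Complex.exp (2 * π * ((⟪(((1 / d : ℝ) : ℂ) * (b j - a i)), t⟫_ℝ : ℝ) : ℂ) * Complex.I) := by
    intro t
    simp only [hg]
    rw [inner_ph_ph]
    refine Finset.sum_congr rfl fun i _ => Finset.sum_congr rfl fun j _ => ?_
    rw [hαβ]
    push_cast
    rfl
  have hgc : Continuous g := by
    have : g = fun t => ∑ i, ∑ j, (conj ⟪u i, x⟫_ℂ * ⟪v j, x⟫_ℂ * ⟪u i, v j⟫_ℂ) *
      Complex.exp (2 * π * ((⟪(((1 / d : ℝ) : ℂ) * (b j - a i)), t⟫_ℝ : ℝ) : ℂ) * Complex.I) :=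
        funext hgsum
    rw [this]
    fun_prop
  have hgn : ∀ t, ‖g t‖ ≤ 1 := by
    intro t
    simp only [hg]
    refine (norm_inner_le_norm _ _).trans ?_
    rw [norm_ph, norm_ph, hx, one_mul]
  refine no_G (fun t => (g t).re) (Complex.continuous_re.comp hgc)
    (fun t => (Complex.abs_re_le_norm _).trans (hgn t)) (fun t ht => ?_) (fun f hf => ?_)
  · -- angle bound
    have hD : 8 * π / 9 * ‖t‖ ≤ π := by
      have h1 : 8 * π / 9 * ‖t‖ ≤ 8 * π / 9 * (3 / π) :=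
        mul_le_mul_of_nonneg_left ht (by positivity)
      have h2 : 8 * π / 9 * (3 / π) = 8 / 3 := by field_simp; norm_num
      rw [h2] at h1
      linarith [Real.pi_gt_three]
    refine angle_bound u v (α t) (β t) (HA (((2 * π / d : ℝ) : ℂ) * t))
      (HB (((2 * π / d : ℝ) : ℂ) * t)) (fun i => hA _ i) (fun i => hB _ i)
      (8 * π / 9 * ‖t‖) (by positivity) hD (fun y => ?_) x hx
    refine (h _ y).trans ?_
    apply mul_le_mul_of_nonneg_right _ (norm_nonneg y)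
    rw [norm_mul, Complex.norm_real, Real.norm_eq_abs, abs_of_pos (by positivity)]
    have h3 : ε * (2 * π / d * ‖t‖) = (ε / d) * (2 * π * ‖t‖) := by ring
    have h4 : ε / d ≤ 4 / 9 := by
      rw [div_le_iff₀ hd0]; linarith
    rw [h3]
    calc (ε / d) * (2 * π * ‖t‖) ≤ 4 / 9 * (2 * π * ‖t‖) :=
          mul_le_mul_of_nonneg_right h4 (by positivity)
      _ = _ := by ring
  · -- the integral vanishes
    have hW := W_integrable f
    have hI : ∀ i j, Integrable (fun t : ℂ =>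
        (conj ⟪u i, x⟫_ℂ * ⟪v j, x⟫_ℂ * ⟪u i, v j⟫_ℂ) * (Complex.exp (2 * π *
        ((⟪(((1 / d : ℝ) : ℂ) * (b j - a i)), t⟫_ℝ : ℝ) : ℂ) * Complex.I) *
        ((‖𝓕 f t‖ ^ 2 : ℝ) : ℂ))) := by
      intro i j
      refine Integrable.const_mul ?_ _
      refine hW.mono' ?_ ?_
      · refine Continuous.aestronglyMeasurable ?_ |>.mul hW.ofReal.aestronglyMeasurable
        fun_prop
      · refine Filter.Eventually.of_forall fun t => ?_
        rw [norm_mul]
        have e : (2 * (π : ℂ) * ((⟪(((1 / d : ℝ) : ℂ) * (b j - a i)), t⟫_ℝ : ℝ) : ℂ) * Complex.I) =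
            ((2 * π * ⟪(((1 / d : ℝ) : ℂ) * (b j - a i)), t⟫_ℝ : ℝ) : ℂ) * Complex.I := by
          push_cast; rfl
        rw [e, Complex.norm_exp_ofReal_mul_I, one_mul, Complex.norm_real, Real.norm_eq_abs,
          abs_of_nonneg (by positivity)]
    have h0 : ∫ t : ℂ, g t * ((‖𝓕 f t‖ ^ 2 : ℝ) : ℂ) = 0 := by
      simp_rw [hgsum, Finset.sum_mul, mul_assoc (conj _ * _ * _)]
      rw [integral_finsetSum _ fun i _ => integrable_finsetSum _ fun j _ => hI i j]
      refine Finset.sum_eq_zero fun i _ => ?_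
      rw [integral_finsetSum _ fun j _ => hI i j]
      refine Finset.sum_eq_zero fun j _ => ?_
      rw [integral_const_mul]
      by_cases h1 : ⟪u i, x⟫_ℂ = 0
      · rw [h1]; simp
      by_cases h2 : ⟪v j, x⟫_ℂ = 0
      · rw [h2]; simp
      have h3 := char_zero f (1 / 2) hf (((1 / d : ℝ) : ℂ) * (b j - a i)) (by
        rw [norm_mul, Complex.norm_real, Real.norm_eq_abs, abs_of_pos (by positivity),
          norm_sub_rev]
        have := hsep i j h1 h2
        rw [one_div_mul_eq_div, le_div_iff₀ hd0]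
        linarith)
      rw [h3, mul_zero]
    have hgI : Integrable (fun t : ℂ => g t * ((‖𝓕 f t‖ ^ 2 : ℝ) : ℂ)) := by
      simp_rw [hgsum, Finset.sum_mul, mul_assoc (conj _ * _ * _)]
      exact integrable_finsetSum _ fun i _ => integrable_finsetSum _ fun j _ => hI i j
    have h4 := integral_re hgI
    simp only [RCLike.re_to_complex] at h4
    rw [h0, Complex.zero_re] at h4
    rw [← h4]
    refine integral_congr_ae (Filter.Eventually.of_forall fun t => ?_)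
    simp only
    rw [Complex.re_mul_ofReal]

end Pool.Agent.KS6_95.SV
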