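import Mathlib
import Pool.Agent.KS6_95.SV.Sep

set_option autoImplicit false

open MeasureTheory Pool.Agent.H434
open scoped InnerProductSpace ComplexConjugate Real

namespace Pool.Agent.KS6_95.SV

theorem exists_common {n : Type} [Fintype n] [DecidableEq n]
    (u w : OrthonormalBasis n ℂ (EuclideanSpace ℂ n))
    (S T : Finset n) (h : Fintype.card n < S.card + T.card) :
    ∃ x : EuclideanSpace ℂ n, ‖x‖ = 1 ∧ (∀ j, j ∉ S → inner ℂ (u j) x = 0) ∧
      ∀ k, k ∉ T → inner ℂ (w k) x = 0 := by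
  let L : EuclideanSpace ℂ n →ₗ[ℂ] ((Sᶜ : Finset n) → ℂ) × ((Tᶜ : Finset n) → ℂ) :=
    (LinearMap.pi fun j : (Sᶜ : Finset n) => (innerSL ℂ (u j)).toLinearMap).prod
      (LinearMap.pi fun k : (Tᶜ : Finset n) => (innerSL ℂ (w k)).toLinearMap)
  have hdim : Module.finrank ℂ (((Sᶜ : Finset n) → ℂ) × ((Tᶜ : Finset n) → ℂ)) <
      Module.finrank ℂ (EuclideanSpace ℂ n) := by
    rw [Module.finrank_prod, Module.finrank_fintype_fun_eq_card,
      Module.finrank_fintype_fun_eq_card, finrank_euclideanSpace, Fintype.card_coe,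
      Fintype.card_coe, Finset.card_compl, Finset.card_compl]
    have h1 := S.card_le_univ
    have h2 := T.card_le_univ
    omega
  have hker := LinearMap.ker_ne_bot_of_finrank_lt (f := L) hdim
  obtain ⟨y, hy, hy0⟩ := Submodule.exists_mem_ne_zero_of_ne_bot hker
  rw [LinearMap.mem_ker] at hy
  have hyn : ‖y‖ ≠ 0 := norm_ne_zero_iff.mpr hy0
  refine ⟨((‖y‖⁻¹ : ℝ) : ℂ) • y, ?_, ?_, ?_⟩
  · rw [norm_smul, Complex.norm_real, norm_inv, norm_norm, inv_mul_cancel₀ hyn]
  · intro j hj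
    have h1 := congrFun (congrArg Prod.fst hy) ⟨j, Finset.mem_compl.mpr hj⟩
    have h2 : inner ℂ (u j) y = 0 := h1
    rw [inner_smul_right, h2, mul_zero]
  · intro k hk
    have h1 := congrFun (congrArg Prod.snd hy) ⟨k, Finset.mem_compl.mpr hk⟩
    have h2 : inner ℂ (w k) y = 0 := h1
    rw [inner_smul_right, h2, mul_zero]

/-- The matching theorem in two variables with constant `9/4`. -/
theorem k2 {n : Type} [Fintype n] [DecidableEq n] (U : Matrix n n ℂ)
    (hU : U ∈ Matrix.unitaryGroup n ℂ) (a b : n → ℂ) (ε : ℝ) (hε0 : 0 ≤ ε)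
    (hε : ∀ (z : ℂ) (x : n → ℂ), ∑ i, ‖∑ j, ((conj z * (a i - b j)).re : ℂ) * U i j * x j‖ ^ 2 ≤
      (ε * ‖z‖) ^ 2 * ∑ j, ‖x j‖ ^ 2) :
    ∃ σ : Equiv.Perm n, ∀ i, ‖a i - b (σ i)‖ ≤ 9 / 4 * ε := by
  classical
  -- the two bases
  let u : OrthonormalBasis n ℂ (EuclideanSpace ℂ n) := EuclideanSpace.basisFun n ℂ
  let w : n → EuclideanSpace ℂ n := fun j => WithLp.toLp 2 (fun i => U i j)
  have hw : Orthonormal ℂ w := by
    rw [orthonormal_iff_ite]
    intro j k
    have h1 := (Matrix.mem_unitaryGroup_iff' (A := U)).1 hU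
    have h2 := congrFun (congrFun h1 j) k
    rw [Matrix.mul_apply] at h2
    simp only [Matrix.star_apply, Matrix.one_apply] at h2
    rw [← h2]
    simp only [w, PiLp.inner_apply, RCLike.inner_apply]
    refine Finset.sum_congr rfl fun i _ => ?_
    rw [mul_comm]
    rfl
  have hspan : ⊤ ≤ Submodule.span ℂ (Set.range w) :=
    (hw.linearIndependent.span_eq_top_of_card_eq_finrank' (by simp)).ge
  let v : OrthonormalBasis n ℂ (EuclideanSpace ℂ n) := OrthonormalBasis.mk hw hspan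
  have hv : ∀ j, v j = w j := fun j => by simp [v]
  have huv : ∀ i j, ⟪u i, v j⟫_ℂ = U i j := by
    intro i j
    rw [hv]
    simp [u, w, EuclideanSpace.inner_single_left]
  let HA : ℂ → EuclideanSpace ℂ n →ₗ[ℂ] EuclideanSpace ℂ n :=
    fun z => u.toBasis.constr ℂ (fun i => ((⟪z, a i⟫_ℝ : ℝ) : ℂ) • u i)
  let HB : ℂ → EuclideanSpace ℂ n →ₗ[ℂ] EuclideanSpace ℂ n :=
    fun z => v.toBasis.constr ℂ (fun i => ((⟪z, b i⟫_ℝ : ℝ) : ℂ) • v i)
  have hA : ∀ z i, HA z (u i) = ((⟪z, a i⟫_ℝ : ℝ) : ℂ) • u i := by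
    intro z i
    have := u.toBasis.constr_basis ℂ (fun i => ((⟪z, a i⟫_ℝ : ℝ) : ℂ) • u i) i
    rw [OrthonormalBasis.coe_toBasis] at this
    exact this
  have hB : ∀ z i, HB z (v i) = ((⟪z, b i⟫_ℝ : ℝ) : ℂ) • v i := by
    intro z i
    have := v.toBasis.constr_basis ℂ (fun i => ((⟪z, b i⟫_ℝ : ℝ) : ℂ) • v i) i
    rw [OrthonormalBasis.coe_toBasis] at this
    exact this
  have h : ∀ z y, ‖HB z y - HA z y‖ ≤ ε * ‖z‖ * ‖y‖ := by
    intro z y
    have h1 : ‖HB z y - HA z y‖ ^ 2 ≤ (ε * ‖z‖ * ‖y‖) ^ 2 := by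
      rw [← u.sum_sq_norm_inner_right]
      have h2 := hε z (fun j => ⟪v j, y⟫_ℂ)
      rw [v.sum_sq_norm_inner_right, ← mul_pow] at h2
      refine le_trans (le_of_eq ?_) h2
      refine Finset.sum_congr rfl fun i _ => ?_
      congr 1
      rw [← norm_neg]
      congr 1
      rw [inner_sub_right, inner_eig u (fun i => ⟪z, a i⟫_ℝ) (HA z) (hA z)]
      have hy : y = ∑ j, ⟪v j, y⟫_ℂ • v j := (v.sum_repr' y).symm
      have h3 : ⟪u i, HB z y⟫_ℂ = ∑ j, ((⟪z, b j⟫_ℝ : ℝ) : ℂ) * U i j * ⟪v j, y⟫_ℂ := by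
        conv_lhs => rw [hy]
        rw [map_sum, inner_sum]
        refine Finset.sum_congr rfl fun j _ => ?_
        rw [map_smul, hB, inner_smul_right, inner_smul_right, huv]
        ring
      have h4 : ⟪u i, y⟫_ℂ = ∑ j, U i j * ⟪v j, y⟫_ℂ := by
        conv_lhs => rw [hy]
        rw [inner_sum]
        refine Finset.sum_congr rfl fun j _ => ?_
        rw [inner_smul_right, huv]
        ring
      rw [h3, h4, neg_sub, Finset.mul_sum, ← Finset.sum_sub_distrib]
      refine Finset.sum_congr rfl fun j _ => ?_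
      have h5 : (conj z * (a i - b j)).re = ⟪z, a i⟫_ℝ - ⟪z, b j⟫_ℝ := by
        simp only [Complex.inner]
        rw [mul_sub, Complex.sub_re, mul_comm (a i), mul_comm (b j)]
      rw [h5]
      push_cast
      ring
    exact (abs_le_of_sq_le_sq' h1 (by positivity)).2
  -- Hall's theorem
  have hall : ∀ s : Finset n, s.card ≤
      (s.biUnion fun i => Finset.univ.filter fun j => ‖a i - b j‖ ≤ 9 / 4 * ε).card := by
    intro s
    by_contra hcon
    push Not at hcon
    set B := s.biUnion fun i => Finset.univ.filter fun j => ‖a i - b j‖ ≤ 9 / 4 * ε with hBdef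
    have hc : Fintype.card n < s.card + Bᶜ.card := by
      rw [Finset.card_compl]
      have := B.card_le_univ
      omega
    obtain ⟨x, hx, hxS, hxT⟩ := exists_common u v s Bᶜ hc
    have hsne : s.Nonempty := by
      rw [← Finset.card_pos]; omega
    have hTne : Bᶜ.Nonempty := by
      rw [← Finset.card_pos, Finset.card_compl]
      have := s.card_le_univ
      omega
    obtain ⟨p, hp, hpmin⟩ := Finset.exists_min_image (s ×ˢ Bᶜ) (fun p => ‖a p.1 - b p.2‖)
      (hsne.product hTne)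
    have hfar : ∀ i ∈ s, ∀ j ∈ Bᶜ, 9 / 4 * ε < ‖a i - b j‖ := by
      intro i hi j hj
      by_contra hle
      push Not at hle
      rw [Finset.mem_compl] at hj
      apply hj
      rw [hBdef, Finset.mem_biUnion]
      exact ⟨i, hi, by simpa using hle⟩
    rw [Finset.mem_product] at hp
    have hd := hfar _ hp.1 _ hp.2
    refine sep u v a b ε hε0 HA HB hA hB h x hx ‖a p.1 - b p.2‖ (by linarith [hd]) hd.le ?_
    intro i j hi hj
    have hi' : i ∈ s := by
      by_contra h0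
      exact hi (hxS i h0)
    have hj' : j ∈ Bᶜ := by
      by_contra h0
      exact hj (hxT j h0)
    exact hpmin (i, j) (Finset.mk_mem_product hi' hj')
  obtain ⟨f, hf, hfm⟩ := (Finset.all_card_le_biUnion_card_iff_exists_injective _).1 hall
  refine ⟨Equiv.ofBijective f (Finite.injective_iff_bijective.1 hf), fun i => ?_⟩
  have := hfm i
  simpa using this

end Pool.Agent.KS6_95.SV
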